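import Pool.Agent.helper11.VQ.Spec3a

/-!
# MP_07c750, project VQ, row WKZ (words as integrals over paths, abstract phase spaces)
-/

set_option autoImplicit false

open scoped ENNReal ComplexConjugate
open MeasureTheory Filter Set

namespace Pool.Agent.VQ

open Pool.Agent.RPQ (IsOp IsMul OProj wrd PJ und1 nst mks)

theorem WKZ_indn {Y : Type} (A : Set Y) (x : Y) : ‖A.indicator (fun _ => (1 : ℂ)) x‖ ≤ 1 := by
  by_cases h : x ∈ A
  · rw [indicator_of_mem h]
    simp
  · rw [indicator_of_notMem h]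
    simp

theorem WKZ_ind {Γ : Type} [Group Γ] {Y : Type} [MulAction Γ Y] {A : Set Y} (hAi : InvS Γ A) (γ : Γ) (x : Y) :
    A.indicator (fun _ => (1 : ℂ)) (γ • x) = A.indicator (fun _ => (1 : ℂ)) x := by
  by_cases h : x ∈ A
  · rw [indicator_of_mem h, indicator_of_mem ((hAi γ x).mpr h)]
  · rw [indicator_of_notMem h, indicator_of_notMem (fun h' => h ((hAi γ x).mp h'))]

theorem WKZ_left {Γ : Type} [Group Γ] {Y : Type} [MeasurableSpace Y] [MulAction Γ Y] {d : Y → Y → ℝ} {A : Set Y}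
    (hA : MeasurableSet A) (hAi : InvS Γ A) {K : Y → Y → ℂ} (hK : KZ Γ d K) :
    KZ Γ d (fun x y => A.indicator (fun _ => (1 : ℂ)) x * K x y) := by
  obtain ⟨B, hB⟩ := hK.bdd
  obtain ⟨D, hD⟩ := hK.range
  refine ⟨?_, ⟨B, fun x y => ?_⟩, fun γ x y => ?_, ⟨D, fun x y hxy => hD x y (right_ne_zero_of_mul hxy)⟩⟩
  · have h1 : Measurable (fun p : Y × Y => A.indicator (fun _ => (1 : ℂ)) p.1) :=
      (measurable_const.indicator hA).comp measurable_fst
    exact h1.mul hK.meas
  · rw [norm_mul]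
    calc _ ≤ 1 * B := mul_le_mul (WKZ_indn A x) (hB x y) (norm_nonneg _) (by norm_num)
      _ = B := one_mul B
  · show A.indicator (fun _ => (1 : ℂ)) (γ • x) * K (γ • x) (γ • y) = _
    rw [WKZ_ind hAi, hK.inv]

theorem WKZ_right {Γ : Type} [Group Γ] {Y : Type} [MeasurableSpace Y] [MulAction Γ Y] {d : Y → Y → ℝ} {A : Set Y}
    (hA : MeasurableSet A) (hAi : InvS Γ A) {K : Y → Y → ℂ} (hK : KZ Γ d K) :
    KZ Γ d (fun x y => K x y * A.indicator (fun _ => (1 : ℂ)) y) := by
  obtain ⟨B, hB⟩ := hK.bdd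
  obtain ⟨D, hD⟩ := hK.range
  refine ⟨?_, ⟨B, fun x y => ?_⟩, fun γ x y => ?_, ⟨D, fun x y hxy => hD x y (left_ne_zero_of_mul hxy)⟩⟩
  · have h1 : Measurable (fun p : Y × Y => A.indicator (fun _ => (1 : ℂ)) p.2) :=
      (measurable_const.indicator hA).comp measurable_snd
    exact hK.meas.mul h1
  · rw [norm_mul]
    have hB0 : 0 ≤ B := (norm_nonneg _).trans (hB x y)
    calc _ ≤ B * 1 := mul_le_mul (hB x y) (WKZ_indn A y) (norm_nonneg _) hB0
      _ = B := mul_one B
  · show K (γ • x) (γ • y) * A.indicator (fun _ => (1 : ℂ)) (γ • y) = _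
    rw [WKZ_ind hAi, hK.inv]

theorem WKZ_it {Y : Type} [MeasurableSpace Y] (m : Measure Y) (k : Y → Y → ℂ) (n : ℕ) :
    itZ m k n = pC m n (fun _ => k) := by
  induction n with
  | zero => rfl
  | succ n ih =>
    show cmZ m k (itZ m k n) = cmZ m k (pC m n (fun _ => k))
    rw [ih]

theorem WKZ_congr {Y : Type} [MeasurableSpace Y] (m : Measure Y) (a : ℕ) :
    ∀ s s' : ℕ → Y → Y → ℂ, (∀ j ≤ a, s j = s' j) → pC m a s = pC m a s' := by
  induction a with
  | zero =>
    intro s s' h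
    exact h 0 le_rfl
  | succ a ih =>
    intro s s' h
    show cmZ m (s 0) (pC m a (fun j => s (j + 1))) = cmZ m (s' 0) (pC m a (fun j => s' (j + 1)))
    rw [h 0 (Nat.zero_le _), ih _ _ (fun j hj => h (j + 1) (Nat.succ_le_succ hj))]

theorem WKZ_gk {Γ : Type} [Group Γ] {Y : Type} [MeasurableSpace Y] [MulAction Γ Y] {d : Y → Y → ℝ} {A : Set Y}
    (hA : MeasurableSet A) (hAi : InvS Γ A) {K : Y → Y → ℂ} (hK : KZ Γ d K)
    (l : List ℕ) (j : ℕ) : KZ Γ d (sZ A l K j) := by
  unfold sZ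
  by_cases h1 : j ∈ mks l
  · by_cases h2 : j + 1 = nst l
    · simp only [if_pos h1, if_pos h2]
      exact WKZ_right hA hAi (WKZ_left hA hAi hK)
    · simp only [if_pos h1, if_neg h2, mul_one]
      exact WKZ_left hA hAi hK
  · by_cases h2 : j + 1 = nst l
    · simp only [if_neg h1, if_pos h2, one_mul]
      exact WKZ_right hA hAi hK
    · simp only [if_neg h1, if_neg h2, one_mul, mul_one]
      exact hK

theorem WKZ_nst : ∀ l : List ℕ, l ≠ [] → 1 ≤ nst l := by
  intro l hl
  cases l with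
  | nil => exact absurd rfl hl
  | cons n l =>
    unfold nst
    simp only [List.map_cons, List.sum_cons]
    omega

theorem WKZ_one (hCKZ : CKZ_stmt) {Γ : Type} [Group Γ] {Y : Type} [MeasurableSpace Y] [MulAction Γ Y] {m : Measure Y}
    {D : Set Y} {d : Y → Y → ℝ} (hP : PS Γ Y m D d) {k : Y → Y → ℂ} (A : Set Y) (hG : KZ Γ d k) (n : ℕ) (x y : Y) :
    wdZ m k A [n] x y = pC m (nst [n] - 1) (sZ A [n] k) x y := by
  have hn : nst [n] - 1 = n := by
    unfold nst
    simp
  rw [hn]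
  have h1 := (hCKZ Γ Y m D d hP (fun _ => k) (fun _ => hG)).2 n (A.indicator (fun _ => (1 : ℂ)))
    (A.indicator (fun _ => (1 : ℂ))) x y
  have h2 : pC m n (sZ A [n] k) = pC m n (fun j x y => (if j = 0 then A.indicator (fun _ => (1 : ℂ)) x else 1) *
      k x y * (if j = n then A.indicator (fun _ => (1 : ℂ)) y else 1)) := by
    apply WKZ_congr
    intro j hj
    funext g h
    unfold sZ
    have e1 : j ∈ mks [n] ↔ j = 0 := by
      have : mks [n] = [0, 0 + (n + 1)] := rfl
      rw [this]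
      simp only [List.mem_cons, List.not_mem_nil, or_false]
      constructor
      · rintro (h1 | h1)
        · exact h1
        · omega
      · exact Or.inl
    have e2 : j + 1 = nst [n] ↔ j = n := by
      have : nst [n] = n + 1 := by
        unfold nst
        simp
      rw [this]
      omega
    simp only [e1, e2]
  rw [h2, h1, ← WKZ_it]
  rfl

theorem WKZ_word (hCKZ : CKZ_stmt) (hMKZ : MKZ_stmt) {Γ : Type} [Group Γ] {Y : Type} [MeasurableSpace Y]
    [MulAction Γ Y] {m : Measure Y} {D : Set Y} {d : Y → Y → ℝ} (hP : PS Γ Y m D d) {k : Y → Y → ℂ} {A : Set Y}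
    (hA : MeasurableSet A) (hAi : InvS Γ A) (hG : KZ Γ d k) (l : List ℕ) :
    l ≠ [] → wdZ m k A l = pC m (nst l - 1) (sZ A l k) := by
  induction l with
  | nil => exact fun h => absurd rfl h
  | cons n l ih =>
    intro _
    cases l with
    | nil =>
      funext x y
      exact WKZ_one hCKZ hP A hG n x y
    | cons n' l =>
      funext x y
      have ih' := ih (by simp)
      have hl1 : 1 ≤ nst (n' :: l) := WKZ_nst _ (by simp)
      have hn : nst (n :: n' :: l) - 1 = n + 1 + (nst (n' :: l) - 1) := by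
        have : nst (n :: n' :: l) = (n + 1) + nst (n' :: l) := by
          unfold nst
          simp
        rw [this]
        omega
      have hw : wdZ m k A (n :: n' :: l) x y =
          ∫ p, (A.indicator (fun _ => (1 : ℂ)) x * itZ m k n x p) * wdZ m k A (n' :: l) p y ∂m := rfl
      rw [hw, hn, (hCKZ Γ Y m D d hP (sZ A (n :: n' :: l) k) (WKZ_gk hA hAi hG _)).1 n (nst (n' :: l) - 1) x y]
      obtain ⟨m1, m2⟩ := (hMKZ Y).1 A k n (n' :: l) (by simp)
      have h2 : (fun j => sZ A (n :: n' :: l) k (n + 1 + j)) = sZ A (n' :: l) k := by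
        funext j
        exact m2 j
      rw [h2, ← ih']
      have h3 : ∀ p, pC m n (sZ A (n :: n' :: l) k) x p = A.indicator (fun _ => (1 : ℂ)) x * itZ m k n x p := by
        intro p
        have h1 := (hCKZ Γ Y m D d hP (fun _ => k) (fun _ => hG)).2 n (A.indicator (fun _ => (1 : ℂ)))
          (fun _ => 1) x p
        have h4 : pC m n (sZ A (n :: n' :: l) k) =
            pC m n (fun j x y => (if j = 0 then A.indicator (fun _ => (1 : ℂ)) x else 1) *
              k x y * (if j = n then (fun _ => (1 : ℂ)) y else 1)) := by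
          apply WKZ_congr
          intro j hj
          rw [m1 j hj]
          funext g h
          simp only [ite_self, mul_one]
        rw [h4, h1, ← WKZ_it, mul_one]
      simp only [h3]

theorem WKZ_proof (hCKZ : CKZ_stmt) (hUKZ : UKZ_stmt) (hMKZ : MKZ_stmt) (hVXZ : VXZ_stmt) (hKSZ : KSZ_stmt) : WKZ_stmt := by
  intro Γ _ Y _ _ m D d hP θ u A l hθ hθi hu hA hAi hl x y
  have hl1 : 1 ≤ nst l := WKZ_nst _ hl
  have hn : nst l - 1 + 1 = nst l := by omega
  have hmain : ∀ θ' : Y → ℝ, Measurable θ' → (∀ (γ : Γ) y, θ' (γ • y) = θ' y) →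
      Integrable (fun v => Complex.exp (((∑ j ∈ Finset.range (nst l), θ' (vz x y v j) : ℝ) : ℂ) * Complex.I) *
        wgZ u A l (vz x y v)) (mZ m (nst l - 1)) ∧ wdZ m (stZ θ' u) A l x y =
      ∫ v, Complex.exp (((∑ j ∈ Finset.range (nst l), θ' (vz x y v j) : ℝ) : ℂ) * Complex.I) *
        wgZ u A l (vz x y v) ∂mZ m (nst l - 1) := by
    intro θ' h1 h2
    have hG : KZ Γ d (stZ θ' u) := (hKSZ Γ Y m D d hP).1 θ' u h1 h2 hu
    have h3 := (hUKZ Γ Y m D d hP (sZ A l (stZ θ' u)) (WKZ_gk hA hAi hG l) (nst l - 1)).2 x y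
    have h4 : (fun v : Fin (nst l - 1) → Y => ∏ j ∈ Finset.range (nst l - 1 + 1),
        sZ A l (stZ θ' u) j (vz x y v j) (vz x y v (j + 1))) =
        fun v => Complex.exp (((∑ j ∈ Finset.range (nst l), θ' (vz x y v j) : ℝ) : ℂ) * Complex.I) *
          wgZ u A l (vz x y v) := by
      funext v
      rw [hn]
      exact (hMKZ Y).2 A θ' u l (vz x y v) hl
    rw [h4] at h3
    rw [WKZ_word hCKZ hMKZ hP hA hAi hG l hl]
    exact h3
  refine ⟨?_, (hmain θ hθ hθi).2⟩
  have h5 := (hmain (fun _ => 0) measurable_const (fun _ _ => rfl)).1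
  have h6 : (fun v : Fin (nst l - 1) → Y => Complex.exp (((∑ j ∈ Finset.range (nst l), (fun _ : Y => (0 : ℝ)) (vz x y v j) : ℝ) : ℂ) *
      Complex.I) * wgZ u A l (vz x y v)) = fun v => wgZ u A l (vz x y v) := by
    funext v
    simp
  rw [h6] at h5
  exact h5

end Pool.Agent.VQ
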