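import Pool.Agent.helper55.VQ.SpecD

set_option autoImplicit false

open scoped MatrixGroups ContDiff Topology UpperHalfPlane ComplexConjugate ENNReal
open UpperHalfPlane MeasureTheory Filter Set

namespace Pool.Agent.VQ

open Pool.Agent.RS
open Pool.Agent.RPQ (CEig mean VV IsOp)

noncomputable section

theorem EDI_inner {X : Type} [MeasurableSpace X] (μ : Measure X) {f g : X → ℂ} (hf : MemLp f 2 μ) (hg : MemLp g 2 μ) :
    inner ℂ (hf.toLp f) (hg.toLp g) = ∫ x, conj (f x) * g x ∂μ := by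
  rw [L2.inner_def]
  refine integral_congr_ae ?_
  filter_upwards [hf.coeFn_toLp, hg.coeFn_toLp] with x h1 h2
  rw [h1, h2, RCLike.inner_apply]
  ring

theorem EDI_norm {X : Type} [MeasurableSpace X] (μ : Measure X) {f : X → ℂ} (hf : MemLp f 2 μ) :
    ‖hf.toLp f‖ ^ 2 = ∫ x, ‖f x‖ ^ 2 ∂μ := by
  have h1 := inner_self_eq_norm_sq_to_K (𝕜 := ℂ) (hf.toLp f)
  rw [EDI_inner] at h1
  have h2 : ∀ x, conj (f x) * f x = ((‖f x‖ ^ 2 : ℝ) : ℂ) := by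
    intro x
    rw [Complex.conj_mul']
    push_cast
    rfl
  simp only [h2] at h1
  rw [integral_complex_ofReal] at h1
  have h3 : ((‖hf.toLp f‖ ^ 2 : ℝ) : ℂ) = ((∫ x, ‖f x‖ ^ 2 ∂μ : ℝ) : ℂ) := by
    rw [h1]
    push_cast
    rfl
  exact_mod_cast h3

theorem EDI_le {X : Type} [MeasurableSpace X] (μ : Measure X) {f g : X → ℂ} (hf : MemLp f 2 μ) (hg : MemLp g 2 μ) (c : ℝ) (hc : 0 ≤ c)
    (h : ∫ x, ‖f x‖ ^ 2 ∂μ ≤ c ^ 2 * ∫ x, ‖g x‖ ^ 2 ∂μ) : ‖hf.toLp f‖ ≤ c * ‖hg.toLp g‖ := by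
  rw [← EDI_norm μ hf, ← EDI_norm μ hg, ← mul_pow] at h
  exact le_of_sq_le_sq h (mul_nonneg hc (norm_nonneg _))

theorem EDI_mul {X : Type} [MeasurableSpace X] (μ : Measure X) {f : X → ℂ} (hf : MemLp f 2 μ) {H : X → ℝ} (hH : Measurable H)
    (h1 : ∀ x, |H x| ≤ 1) : MemLp (fun x => ((H x : ℝ) : ℂ) * f x) 2 μ := by
  refine hf.mono ((Complex.measurable_ofReal.comp hH).aestronglyMeasurable.mul hf.1) (Eventually.of_forall fun x => ?_)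
  rw [norm_mul, Complex.norm_real, Real.norm_eq_abs]
  have := h1 x
  have := norm_nonneg (f x)
  nlinarith

theorem EDI_pure (hEAI : EAI_stmt) {X : Type} [MeasurableSpace X] (μ : Measure X) {Φ W Y : X → ℂ} {H G : X → ℝ} (hΦ : MemLp Φ 2 μ) (hW : MemLp W 2 μ)
    (hY : MemLp Y 2 μ) (hH : Measurable H) (hG : Measurable G) (hH1 : ∀ x, |H x| ≤ 1) (hG1 : ∀ x, |G x| ≤ 1) (ε κ : ℝ) (hε0 : 0 ≤ ε) (hε1 : ε ≤ 1) (hκ : 0 ≤ κ)
    (hV : ∀ s : ℂ, ∫ x, ‖W x + s * Y x‖ ^ 2 ∂μ ≤ (1 + ε) ^ 2 * ∫ x, ‖Φ x + s * (((H x : ℝ) : ℂ) * Φ x)‖ ^ 2 ∂μ)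
    (h1 : ∫ x, ‖W x - Φ x‖ ^ 2 ∂μ ≤ ε ^ 2 * ∫ x, ‖Φ x‖ ^ 2 ∂μ)
    (h2 : ∫ x, ‖Y x - ((G x : ℝ) : ℂ) * W x‖ ^ 2 ∂μ ≤ κ ^ 2 * ∫ x, ‖Φ x‖ ^ 2 ∂μ) :
    |(∫ x, G x * ‖Φ x‖ ^ 2 ∂μ) - ∫ x, H x * ‖Φ x‖ ^ 2 ∂μ| ≤ (ε + κ + 10 * Real.sqrt ε) * ∫ x, ‖Φ x‖ ^ 2 ∂μ := by
  have hHΦ := EDI_mul μ hΦ hH hH1
  have hGΦ := EDI_mul μ hΦ hG hG1
  have hGW := EDI_mul μ hW hG hG1
  set b := hΦ.toLp Φ with hb
  set a := hHΦ.toLp (fun x => ((H x : ℝ) : ℂ) * Φ x) with ha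
  set c := hGΦ.toLp (fun x => ((G x : ℝ) : ℂ) * Φ x) with hc
  set d := hGW.toLp (fun x => ((G x : ℝ) : ℂ) * W x) with hd
  set Vb := hW.toLp W with hVb
  set Va := hY.toLp Y with hVa
  -- the hypotheses of EAI
  have hVs : ∀ s : ℂ, ‖Vb + s • Va‖ ≤ (1 + ε) * ‖b + s • a‖ := by
    intro s
    have e1 : Vb + s • Va = (hW.add (hY.const_smul s)).toLp (W + s • Y) := by
      rw [MemLp.toLp_add hW (hY.const_smul s), MemLp.toLp_const_smul s hY]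
    have e2 : b + s • a = (hΦ.add (hHΦ.const_smul s)).toLp (Φ + s • (fun x => ((H x : ℝ) : ℂ) * Φ x)) := by
      rw [MemLp.toLp_add hΦ (hHΦ.const_smul s), MemLp.toLp_const_smul s hHΦ]
    rw [e1, e2]
    exact EDI_le μ _ _ (1 + ε) (by linarith) (hV s)
  have hVb1 : ‖Vb - b‖ ≤ ε * ‖b‖ := by
    have e1 : Vb - b = (hW.sub hΦ).toLp (W - Φ) := by
      rw [MemLp.toLp_sub hW hΦ]
    rw [e1]
    exact EDI_le μ _ _ ε hε0 h1
  have hE := hEAI (Lp ℂ 2 μ) a b Va Vb ε hε0 hε1 hVs hVb1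
  -- the other norms
  have hab : ‖a‖ ≤ ‖b‖ := by
    have e1 : ‖a‖ ≤ 1 * ‖b‖ := by
      refine EDI_le μ _ _ 1 zero_le_one ?_
      rw [one_pow, one_mul]
      refine integral_mono_of_nonneg (Eventually.of_forall fun x => sq_nonneg _) ((memLp_two_iff_integrable_sq_norm hΦ.1).1 hΦ) (Eventually.of_forall fun x => ?_)
      show ‖((H x : ℝ) : ℂ) * Φ x‖ ^ 2 ≤ ‖Φ x‖ ^ 2
      rw [norm_mul, Complex.norm_real, Real.norm_eq_abs, mul_pow]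
      have e2 : |H x| ^ 2 ≤ 1 := pow_le_one₀ (abs_nonneg _) (hH1 x)
      have e3 : 0 ≤ ‖Φ x‖ ^ 2 := sq_nonneg _
      nlinarith
    linarith
  have hcd : ‖c - d‖ ≤ ε * ‖b‖ := by
    have e1 : c - d = (hGΦ.sub hGW).toLp ((fun x => ((G x : ℝ) : ℂ) * Φ x) - fun x => ((G x : ℝ) : ℂ) * W x) := by
      rw [MemLp.toLp_sub hGΦ hGW]
    have e0 : ‖c - d‖ ≤ 1 * ‖(hW.sub hΦ).toLp (W - Φ)‖ := by
      rw [e1]
      refine EDI_le μ _ _ 1 zero_le_one ?_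
      rw [one_pow, one_mul]
      refine integral_mono_of_nonneg (Eventually.of_forall fun x => sq_nonneg _) ((memLp_two_iff_integrable_sq_norm (hW.sub hΦ).1).1 (hW.sub hΦ)) (Eventually.of_forall fun x => ?_)
      show ‖((G x : ℝ) : ℂ) * Φ x - ((G x : ℝ) : ℂ) * W x‖ ^ 2 ≤ ‖W x - Φ x‖ ^ 2
      rw [← mul_sub, norm_mul, Complex.norm_real, Real.norm_eq_abs, mul_pow, norm_sub_rev]
      have e2 : |G x| ^ 2 ≤ 1 := pow_le_one₀ (abs_nonneg _) (hG1 x)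
      have e3 : 0 ≤ ‖W x - Φ x‖ ^ 2 := sq_nonneg _
      nlinarith
    have e4 : ‖(hW.sub hΦ).toLp (W - Φ)‖ ≤ ε * ‖b‖ := EDI_le μ _ _ ε hε0 h1
    linarith
  have hdV : ‖d - Va‖ ≤ κ * ‖b‖ := by
    have e1 : Va - d = (hY.sub hGW).toLp (Y - fun x => ((G x : ℝ) : ℂ) * W x) := by
      rw [MemLp.toLp_sub hY hGW]
    rw [norm_sub_rev, e1]
    exact EDI_le μ _ _ κ hκ h2
  have hcb : inner ℂ c b = ((∫ x, G x * ‖Φ x‖ ^ 2 ∂μ : ℝ) : ℂ) := by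
    rw [hc, hb, EDI_inner, ← integral_complex_ofReal]
    refine integral_congr_ae (Eventually.of_forall fun x => ?_)
    show conj (((G x : ℝ) : ℂ) * Φ x) * Φ x = _
    rw [map_mul, Complex.conj_ofReal, mul_assoc, Complex.conj_mul']
    push_cast
    rfl
  have hinab : inner ℂ a b = ((∫ x, H x * ‖Φ x‖ ^ 2 ∂μ : ℝ) : ℂ) := by
    rw [ha, hb, EDI_inner, ← integral_complex_ofReal]
    refine integral_congr_ae (Eventually.of_forall fun x => ?_)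
    show conj (((H x : ℝ) : ℂ) * Φ x) * Φ x = _
    rw [map_mul, Complex.conj_ofReal, mul_assoc, Complex.conj_mul']
    push_cast
    rfl
  have hkey : ‖inner ℂ c b - inner ℂ a b‖ ≤ (ε + κ + 10 * Real.sqrt ε) * ‖b‖ ^ 2 := by
    have e1 : inner ℂ c b - inner ℂ a b = inner ℂ (c - d) b + inner ℂ (d - Va) b + (inner ℂ Va b - inner ℂ a b) := by
      rw [inner_sub_left, inner_sub_left]
      ring
    rw [e1]
    have e2 : ‖inner ℂ (c - d) b‖ ≤ ε * ‖b‖ ^ 2 := by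
      have := norm_inner_le_norm (𝕜 := ℂ) (c - d) b
      have e5 := norm_nonneg b
      nlinarith
    have e3 : ‖inner ℂ (d - Va) b‖ ≤ κ * ‖b‖ ^ 2 := by
      have := norm_inner_le_norm (𝕜 := ℂ) (d - Va) b
      have e5 := norm_nonneg b
      nlinarith
    have e4 : ‖inner ℂ Va b - inner ℂ a b‖ ≤ 10 * Real.sqrt ε * ‖b‖ ^ 2 := by
      refine hE.trans ?_
      have e5 := norm_nonneg b
      have e6 : 0 ≤ 10 * Real.sqrt ε := by positivity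
      calc 10 * Real.sqrt ε * ‖a‖ * ‖b‖ ≤ 10 * Real.sqrt ε * ‖b‖ * ‖b‖ := by gcongr
        _ = 10 * Real.sqrt ε * ‖b‖ ^ 2 := by ring
    have e7 := norm_add_le (inner ℂ (c - d) b + inner ℂ (d - Va) b) (inner ℂ Va b - inner ℂ a b)
    have e8 := norm_add_le (inner ℂ (c - d) b) (inner ℂ (d - Va) b)
    linarith
  rw [hcb, hinab, EDI_norm, ← Complex.ofReal_sub, Complex.norm_real, Real.norm_eq_abs] at hkey
  exact hkey

theorem EDI_fpL {Γ : Subgroup SL(2, ℝ)} {F : Set ℍ} (hF : MeasurableSet F) (R : ℝ)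
    {v : SL(2, ℝ) × ℝ → ℂ} (hv : FP Γ F v) : MemLp v 2 (mP.restrict (PW F 2 R)) := by
  obtain ⟨b, hb⟩ := hv.bdd
  obtain ⟨b', hb'⟩ := hv.supp
  have hPW : MeasurableSet (PW F 2 R) := (RS.A_GMG.1 F hF).1.prod measurableSet_Icc
  rw [memLp_two_iff_integrable_sq_norm hv.meas.aestronglyMeasurable]
  set S : Set (SL(2, ℝ) × ℝ) := dG (Metric.closedBall I b') ×ˢ Wi 2 R with hS
  have hSf : mP S ≠ ⊤ := by
    rw [hS, mP, Measure.prod_prod, (RS.A_GMG.1 _ Metric.isClosed_closedBall.measurableSet).2]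
    refine ENNReal.mul_ne_top (isCompact_closedBall _ _).measure_lt_top.ne ?_
    rw [Wi, Real.volume_Icc]
    exact ENNReal.ofReal_ne_top
  have h1 : IntegrableOn (fun p => ‖v p‖ ^ 2) S mP := by
    refine Measure.integrableOn_of_bounded (M := b ^ 2) hSf (hv.meas.norm.pow_const 2).aestronglyMeasurable
      (Eventually.of_forall fun p => ?_)
    rw [Real.norm_of_nonneg (by positivity)]
    have := hb p
    have h0 := norm_nonneg (v p)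
    gcongr
  refine h1.of_forall_sdiff_eq_zero hPW fun p hp => ?_
  by_contra h0
  apply hp.2
  have h2 : v p ≠ 0 := by
    intro h3
    apply h0
    rw [h3]
    simp
  exact ⟨hb' p hp.1.1 h2, hp.1.2⟩

/-- integrability of the integrand of the operator -/
theorem EDI_int {Γ : Subgroup SL(2, ℝ)} {F : Set ℍ} {R : ℝ} {K : SL(2, ℝ) × ℝ → SL(2, ℝ) × ℝ → ℂ} (hK : KZ Γ dW K)
    (hKW : ∀ p q, K p q ≠ 0 → p ∈ GW 2 R ∧ q ∈ GW 2 R) {v : SL(2, ℝ) × ℝ → ℂ} (hv : FP Γ F v) (p : SL(2, ℝ) × ℝ) :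
    Integrable (fun q => K p q * v q) mP := by
  obtain ⟨b, hb⟩ := hv.bdd
  obtain ⟨M, hM⟩ := hK.bdd
  obtain ⟨T, hT⟩ := hK.range
  set S : Set (SL(2, ℝ) × ℝ) := dG (Metric.closedBall (p.1 • I) T) ×ˢ Wi 2 R with hS
  have hSm : MeasurableSet S := (RS.A_GMG.1 _ Metric.isClosed_closedBall.measurableSet).1.prod measurableSet_Icc
  have hSf : mP S ≠ ⊤ := by
    rw [hS, mP, Measure.prod_prod, (RS.A_GMG.1 _ Metric.isClosed_closedBall.measurableSet).2]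
    refine ENNReal.mul_ne_top (isCompact_closedBall _ _).measure_lt_top.ne ?_
    rw [Wi, Real.volume_Icc]
    exact ENNReal.ofReal_ne_top
  have hmeas : Measurable (fun q => K p q * v q) := (hK.meas.comp measurable_prodMk_left).mul hv.meas
  have h1 : IntegrableOn (fun q => K p q * v q) S mP := by
    refine Measure.integrableOn_of_bounded (M := M * b) hSf hmeas.aestronglyMeasurable
      (Eventually.of_forall fun q => ?_)
    rw [norm_mul]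
    exact mul_le_mul (hM p q) (hb q) (norm_nonneg _) ((norm_nonneg _).trans (hM p q))
  rw [← integrableOn_univ]
  refine h1.of_forall_sdiff_eq_zero MeasurableSet.univ fun q hq => ?_
  by_contra h0
  apply hq.2
  have h2 : K p q ≠ 0 := by
    intro h3
    apply h0
    rw [h3, zero_mul]
  refine ⟨?_, (hKW p q h2).2.2⟩
  show dist (q.1 • I : ℍ) (p.1 • I) ≤ T
  rw [dist_comm]
  exact hT p q h2

theorem EDI_lin {Γ : Subgroup SL(2, ℝ)} {F : Set ℍ} {R : ℝ} {K : SL(2, ℝ) × ℝ → SL(2, ℝ) × ℝ → ℂ} (hK : KZ Γ dW K)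
    (hKW : ∀ p q, K p q ≠ 0 → p ∈ GW 2 R ∧ q ∈ GW 2 R) {v w : SL(2, ℝ) × ℝ → ℂ} (hv : FP Γ F v) (hw : FP Γ F w) (s : ℂ) (p : SL(2, ℝ) × ℝ) :
    Op K (fun q => v q + s * w q) p = Op K v p + s * Op K w p := by
  unfold Op
  rw [← integral_const_mul, ← integral_add (EDI_int hK hKW hv p) ((EDI_int hK hKW hw p).const_mul s)]
  refine integral_congr_ae (Eventually.of_forall fun q => ?_)
  show K p q * (v q + s * w q) = K p q * v q + s * (K p q * w q)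
  ring

theorem EDI_fpadd {Γ : Subgroup SL(2, ℝ)} {F : Set ℍ} {v w : SL(2, ℝ) × ℝ → ℂ} (hv : FP Γ F v) (hw : FP Γ F w) (s : ℂ) :
    FP Γ F (fun q => v q + s * w q) := by
  obtain ⟨b1, hb1⟩ := hv.bdd
  obtain ⟨b2, hb2⟩ := hw.bdd
  obtain ⟨c1, hc1⟩ := hv.supp
  obtain ⟨c2, hc2⟩ := hw.supp
  refine ⟨hv.meas.add (measurable_const.mul hw.meas), ⟨b1 + ‖s‖ * b2, fun p => ?_⟩, fun γ p => ?_, ⟨max c1 c2, fun p hp h0 => ?_⟩⟩
  · refine (norm_add_le _ _).trans (add_le_add (hb1 p) ?_)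
    rw [norm_mul]
    exact mul_le_mul_of_nonneg_left (hb2 p) (norm_nonneg _)
  · rw [hv.inv γ p, hw.inv γ p]
  · by_cases h1 : v p = 0
    · by_cases h2 : w p = 0
      · exact absurd (by rw [h1, h2, mul_zero, add_zero]) h0
      · exact (hc2 p hp h2).trans (le_max_right _ _)
    · exact (hc1 p hp h1).trans (le_max_left _ _)

theorem EDI_fpmul {Γ : Subgroup SL(2, ℝ)} {F : Set ℍ} {v h : SL(2, ℝ) × ℝ → ℂ} (hv : FP Γ F v) (hm : Measurable h) (h1 : ∀ p, ‖h p‖ ≤ 1)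
    (hi : ∀ (γ : Γ) (p : SL(2, ℝ) × ℝ), h ((γ : SL(2, ℝ)) * p.1, p.2) = h p) : FP Γ F (fun q => h q * v q) := by
  obtain ⟨b1, hb1⟩ := hv.bdd
  obtain ⟨c1, hc1⟩ := hv.supp
  refine ⟨hm.mul hv.meas, ⟨1 * b1, fun p => ?_⟩, fun γ p => ?_, ⟨c1, fun p hp h0 => hc1 p hp fun h2 => h0 ?_⟩⟩
  · rw [norm_mul]
    exact mul_le_mul (h1 p) (hb1 p) (norm_nonneg _) zero_le_one
  · rw [hv.inv γ p, hi γ p]
  · rw [h2, mul_zero]

theorem EDI_phm {Γ : Subgroup SL(2, ℝ)} {δ : ℝ} {B : ℕ → ℝ} {D : Dyn} (hD : OKD Γ δ B D) (t : ℝ) :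
    Measurable (D.ph t) := by
  classical
  have : SecondCountableTopology SL(2, ℝ) := A_GLC.2.1
  have hs : MeasurableSet {x : SL(2, ℝ) × ℝ | |x.2| ≤ 1 / 8} := by
    have : IsClosed {x : SL(2, ℝ) × ℝ | |x.2| ≤ 1 / 8} :=
      isClosed_le (by fun_prop) continuous_const
    exact this.measurableSet
  have h1 : ContinuousOn (fun x : SL(2, ℝ) × ℝ => D.fl x.2 t x.1) {x | |x.2| ≤ 1 / 8} := by
    have h2 : ContinuousOn (fun x : SL(2, ℝ) × ℝ => ((x.2, t, x.1) : ℝ × ℝ × SL(2, ℝ)))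
        {x | |x.2| ≤ 1 / 8} := by
      refine Continuous.continuousOn ?_
      fun_prop
    exact hD.cfl.comp h2 (fun x hx => hx)
  have h3 : ContinuousOn (fun x : SL(2, ℝ) × ℝ => x.1) {x | |x.2| ≤ 1 / 8}ᶜ := by
    refine Continuous.continuousOn ?_
    fun_prop
  have h4 := ContinuousOn.measurable_piecewise h1 h3 hs
  have h5 : (fun x : SL(2, ℝ) × ℝ => D.fl x.2 t x.1) =
      ({x : SL(2, ℝ) × ℝ | |x.2| ≤ 1 / 8}).piecewise (fun x : SL(2, ℝ) × ℝ => D.fl x.2 t x.1) (fun x => x.1) := by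
    funext x
    by_cases hx : x ∈ {x : SL(2, ℝ) × ℝ | |x.2| ≤ 1 / 8}
    · rw [Set.piecewise_eq_of_mem _ _ _ hx]
    · rw [Set.piecewise_eq_of_notMem _ _ _ hx]
      exact (hD.out x.2 t x.1 (not_le.1 hx)).1
  have h6 : Measurable (fun x : SL(2, ℝ) × ℝ => D.fl x.2 t x.1) := by
    rw [h5]
    exact h4
  exact h6.prodMk measurable_snd

/-- the numbers -/
theorem EDI_num : ∃ R0 : ℝ, 1 ≤ R0 ∧ ∀ R : ℝ, R0 ≤ R → 1 ≤ R ∧ 2 * R ^ (-(1 / 140) : ℝ) ≤ 1 ∧ R ^ (-(1 / 5) : ℝ) ≤ 2 * R ^ (-(1 / 140) : ℝ) ∧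
    R ^ (-(1 / 4) : ℝ) ≤ 1 / 2 ∧ R ^ (-(1 / 70) : ℝ) = (R ^ (-(1 / 140) : ℝ)) ^ 2 ∧
    2 * R ^ (-(1 / 140) : ℝ) + 10 * Real.sqrt (2 * R ^ (-(1 / 140) : ℝ)) ≤ R ^ (-(1 / 300) : ℝ) ∧ R ^ (1 / 100 : ℝ) = (R ^ (1 / 200 : ℝ)) ^ 2 := by
  refine ⟨(16 : ℝ) ^ 4200, one_le_pow₀ (by norm_num), fun R hR => ?_⟩
  have hR1 : 1 ≤ R := le_trans (one_le_pow₀ (by norm_num)) hR
  have hR0 : 0 < R := lt_of_lt_of_le zero_lt_one hR1
  have h16 : (16 : ℝ) ≤ R ^ (1 / 4200 : ℝ) := by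
    have h1 : ((16 : ℝ) ^ 4200) ^ (1 / 4200 : ℝ) ≤ R ^ (1 / 4200 : ℝ) :=
      Real.rpow_le_rpow (by positivity) hR (by norm_num)
    have h2 : ((16 : ℝ) ^ 4200) ^ (1 / 4200 : ℝ) = 16 := by
      have h3 := Real.pow_rpow_inv_natCast (x := (16 : ℝ)) (n := 4200) (by norm_num) (by norm_num)
      have h4 : (1 / 4200 : ℝ) = ((4200 : ℕ) : ℝ)⁻¹ := by norm_num
      rw [h4]
      exact h3
    rwa [h2] at h1
  clear hR
  have e1 : R ^ (-(1 / 300) : ℝ) = R ^ (1 / 4200 : ℝ) * R ^ (-(1 / 280) : ℝ) := by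
    rw [← Real.rpow_add hR0]
    norm_num
  have e2 : R ^ (-(1 / 140) : ℝ) = R ^ (-(1 / 280) : ℝ) * R ^ (-(1 / 280) : ℝ) := by
    rw [← Real.rpow_add hR0]
    norm_num
  have p1 : 0 < R ^ (-(1 / 280) : ℝ) := Real.rpow_pos_of_pos hR0 _
  have q1 : R ^ (-(1 / 280) : ℝ) * R ^ (1 / 280 : ℝ) = 1 := by
    rw [← Real.rpow_add hR0]
    norm_num
  have q2 : (16 : ℝ) ≤ R ^ (1 / 280 : ℝ) := h16.trans (Real.rpow_le_rpow_of_exponent_le hR1 (by norm_num))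
  have q3 : R ^ (-(1 / 280) : ℝ) ≤ 1 / 16 := by nlinarith
  have r1 : R ^ (-(1 / 4) : ℝ) ≤ R ^ (-(1 / 280) : ℝ) := Real.rpow_le_rpow_of_exponent_le hR1 (by norm_num)
  have r2 : R ^ (-(1 / 5) : ℝ) ≤ R ^ (-(1 / 140) : ℝ) := Real.rpow_le_rpow_of_exponent_le hR1 (by norm_num)
  have r3 : 0 < R ^ (-(1 / 140) : ℝ) := Real.rpow_pos_of_pos hR0 _
  refine ⟨hR1, by rw [e2]; nlinarith, by linarith, by linarith, ?_, ?_, ?_⟩
  · rw [← Real.rpow_natCast, ← Real.rpow_mul hR0.le]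
    norm_num
  · have s1 : Real.sqrt (2 * R ^ (-(1 / 140) : ℝ)) ≤ 3 / 2 * R ^ (-(1 / 280) : ℝ) := by
      rw [Real.sqrt_le_left (by positivity), e2]
      nlinarith
    have s2 : 2 * R ^ (-(1 / 140) : ℝ) ≤ R ^ (-(1 / 280) : ℝ) := by
      rw [e2]
      nlinarith
    rw [e1]
    nlinarith
  · rw [← Real.rpow_natCast, ← Real.rpow_mul hR0.le]
    norm_num

theorem EDI_proof (hEAI : EAI_stmt) (hED1 : ED1_stmt) (hEDC : EDC_stmt) (hEDW : EDW_stmt) (hVTS : VTS_stmt) (hVTN : VTN_stmt) (hVUM : VUM_stmt) : EDI_stmt := by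
  obtain ⟨C1, hC1, H1⟩ := hED1
  obtain ⟨C2, hC2, H2⟩ := hEDC
  obtain ⟨C3, hC3, H3⟩ := hEDW
  obtain ⟨C4, hC4, H4⟩ := hVTS
  obtain ⟨C5, hC5, H5⟩ := hVTN
  obtain ⟨C6, hC6, H6⟩ := hVUM
  refine ⟨C1 + C2 + C3 + C4 + C5 + C6, by linarith, fun ch B A hch hA => ?_⟩
  obtain ⟨R1, hR1, H1⟩ := H1 ch B A hch (Adm_mono hA hC1 (by linarith))
  obtain ⟨R2, hR2, H2⟩ := H2 ch B A hch (Adm_mono hA hC2 (by linarith))
  obtain ⟨R3, hR3, H3⟩ := H3 ch B A hch (Adm_mono hA hC3 (by linarith))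
  obtain ⟨R4, hR4, H4⟩ := H4 ch B A hch (Adm_mono hA hC4 (by linarith))
  obtain ⟨R5, hR5, H5⟩ := H5 ch B A hch (Adm_mono hA hC5 (by linarith))
  obtain ⟨R6, hR6, H6⟩ := H6 ch B A hch (Adm_mono hA hC6 (by linarith))
  obtain ⟨R7, hR7, H7⟩ := EDI_num
  refine ⟨R1 + R2 + R3 + R4 + R5 + R6 + R7, by linarith, ?_⟩
  intro R δ w Γ F D f F' μ φ H hR hΓ hF hD hδ hE hw hSV
  obtain ⟨n1, n2, n3, n4, n5, n6, n7⟩ := H7 R (by linarith)
  have hDm : Dm Γ F := Or.inl ⟨hΓ, hF⟩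
  obtain ⟨a1, -, a3, a4, a5⟩ := H3 R δ Γ F D f F' μ φ (by linarith) hΓ hF hD hδ hE
  obtain ⟨b1, -⟩ := H1 R δ Γ F D f F' μ φ (by linarith) hΓ hF hD hδ hE
  have c1 := H2 R δ w Γ F D _ _ (by linarith) hDm hD hδ hw hSV a1
  have d1 := fun v hv => (H4 R δ Γ F D v (by linarith) hDm hD hδ hv).2.2.1
  obtain ⟨t1, t2, -, -⟩ := (H5 R δ Γ F D (by linarith) hDm hD hδ).2 f (A.sg R) hE.sm.inv
  obtain ⟨u1, -, -, u4, -, u6, -⟩ := H6 R δ Γ F D (by linarith) hDm hD hδ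
  set Φ : SL(2, ℝ) × ℝ → ℂ := QF D.U ch A.z R φ with hΦdef
  set us' := us D ch A R with hus
  set E1 : SL(2, ℝ) × ℝ → ℂ := fun p => Complex.exp (-(((thP D f R (A.sg R) p : ℝ) : ℂ) * Complex.I)) with hE1
  have hE1m : Measurable E1 := by
    refine Complex.measurable_exp.comp ?_
    exact ((Complex.measurable_ofReal.comp t1).mul_const _).neg
  have hE1n : ∀ p, ‖E1 p‖ = 1 := by
    intro p
    show ‖Complex.exp (-(((thP D f R (A.sg R) p : ℝ) : ℂ) * Complex.I))‖ = 1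
    rw [← neg_mul, ← Complex.ofReal_neg, Complex.norm_exp_ofReal_mul_I]
  have hE1i : ∀ (γ : Γ) (p : SL(2, ℝ) × ℝ), E1 ((γ : SL(2, ℝ)) * p.1, p.2) = E1 p := by
    intro γ p
    show Complex.exp (-(((thP D f R (A.sg R) ((γ : SL(2, ℝ)) * p.1, p.2) : ℝ) : ℂ) * Complex.I)) = _
    rw [t2 γ p]
  have hHb : ∀ p, |H p| ≤ 1 := by
    intro p
    have := hSV.bd p
    rwa [Complex.norm_real, Real.norm_eq_abs] at this
  have hHm : Measurable H := by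
    have := Complex.measurable_re.comp hSV.meas
    exact this
  -- the functions
  have hHΦ : FP Γ F (fun q => ((H q : ℝ) : ℂ) * Φ q) := EDI_fpmul a1 hSV.meas hSV.bd hSV.inv
  have hOΦ : FP Γ F (Op us' Φ) := u6 us' Φ u1 u4 a1
  have hOHΦ : FP Γ F (Op us' (fun q => ((H q : ℝ) : ℂ) * Φ q)) := u6 us' _ u1 u4 hHΦ
  have hW : FP Γ F (fun p => E1 p * Op us' Φ p) := EDI_fpmul hOΦ hE1m (fun p => (hE1n p).le) hE1i
  have hY : FP Γ F (fun p => E1 p * Op us' (fun q => ((H q : ℝ) : ℂ) * Φ q) p) := EDI_fpmul hOHΦ hE1m (fun p => (hE1n p).le) hE1i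
  have hFm := hF.meas
  have hN0 : 0 ≤ nn F φ := integral_nonneg fun z => sq_nonneg _
  have hnP : ∀ v, 0 ≤ nP F 2 R v := fun v => integral_nonneg fun p => sq_nonneg _
  set r : ℝ := R ^ (-(1 / 140) : ℝ) with hr
  have hr0 : 0 ≤ r := Real.rpow_nonneg (by linarith) _
  set k : ℝ := R ^ (1 / 200 : ℝ) with hk
  have hk0 : 0 ≤ k := Real.rpow_nonneg (by linarith) _
  have hNle : nn F φ ≤ 2 * nP F 2 R Φ := by nlinarith
  have hR5 : 0 ≤ R ^ (-(1 / 5) : ℝ) := Real.rpow_nonneg (by linarith) _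
  have key := EDI_pure hEAI (mP.restrict (PW F 2 R)) (Φ := Φ) (W := fun p => E1 p * Op us' Φ p)
    (Y := fun p => E1 p * Op us' (fun q => ((H q : ℝ) : ℂ) * Φ q) p) (H := H) (G := fun p => H (D.ph (A.sg R) p))
    (EDI_fpL hFm R a1) (EDI_fpL hFm R hW) (EDI_fpL hFm R hY) hHm (hHm.comp (EDI_phm hD _)) hHb (fun p => hHb _) (2 * r) (w * k)
    (by positivity) n2 (by positivity) (fun s => ?_) ?_ ?_
  · refine key.trans ?_
    have e1 : ∫ x in PW F 2 R, ‖Φ x‖ ^ 2 ∂mP = nP F 2 R Φ := rfl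
    rw [e1]
    have e2 : 0 ≤ 2 * r + w * k + 10 * Real.sqrt (2 * r) := by positivity
    calc (2 * r + w * k + 10 * Real.sqrt (2 * r)) * nP F 2 R Φ ≤ (2 * r + w * k + 10 * Real.sqrt (2 * r)) * nn F φ := mul_le_mul_of_nonneg_left a3 e2
      _ ≤ (w * k + R ^ (-(1 / 300) : ℝ)) * nn F φ := mul_le_mul_of_nonneg_right (by linarith) hN0
  · have e1 : ∀ p, ‖E1 p * Op us' Φ p + s * (E1 p * Op us' (fun q => ((H q : ℝ) : ℂ) * Φ q) p)‖ ^ 2 = ‖Op us' (fun q => Φ q + s * (((H q : ℝ) : ℂ) * Φ q)) p‖ ^ 2 := by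
      intro p
      rw [EDI_lin u1 u4 a1 hHΦ s p]
      have e2 : E1 p * Op us' Φ p + s * (E1 p * Op us' (fun q => ((H q : ℝ) : ℂ) * Φ q) p) = E1 p * (Op us' Φ p + s * Op us' (fun q => ((H q : ℝ) : ℂ) * Φ q) p) := by ring
      rw [e2, norm_mul, hE1n, one_mul]
    simp only [e1]
    have e3 := d1 _ (EDI_fpadd a1 hHΦ s)
    refine e3.trans (mul_le_mul_of_nonneg_right ?_ (hnP _))
    exact pow_le_pow_left₀ (by linarith) (by linarith) 2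
  · have e1 : ∀ p, ‖E1 p * Op us' Φ p - Φ p‖ ^ 2 = ‖Op us' Φ p - Complex.exp (((thP D f R (A.sg R) p : ℝ) : ℂ) * Complex.I) * Φ p‖ ^ 2 := by
      intro p
      have e2 : E1 p * Complex.exp (((thP D f R (A.sg R) p : ℝ) : ℂ) * Complex.I) = 1 := by
        show Complex.exp (-(((thP D f R (A.sg R) p : ℝ) : ℂ) * Complex.I)) * _ = 1
        rw [← Complex.exp_add, neg_add_cancel, Complex.exp_zero]
      have e3 : E1 p * Op us' Φ p - Φ p = E1 p * (Op us' Φ p - Complex.exp (((thP D f R (A.sg R) p : ℝ) : ℂ) * Complex.I) * Φ p) := by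
        rw [mul_sub, ← mul_assoc, e2, one_mul]
      rw [e3, norm_mul, hE1n, one_mul]
    simp only [e1]
    refine b1.trans ?_
    rw [n5]
    have e4 : ∫ x in PW F 2 R, ‖Φ x‖ ^ 2 ∂mP = nP F 2 R Φ := rfl
    rw [e4]
    have e5 : 0 ≤ r ^ 2 := sq_nonneg _
    have e6 := hnP Φ
    nlinarith
  · have e1 : ∀ p, ‖E1 p * Op us' (fun q => ((H q : ℝ) : ℂ) * Φ q) p - ((H (D.ph (A.sg R) p) : ℝ) : ℂ) * (E1 p * Op us' Φ p)‖ ^ 2 =
        ‖Op us' (fun q => ((H q : ℝ) : ℂ) * Φ q) p - ((H (D.ph (A.sg R) p) : ℝ) : ℂ) * Op us' Φ p‖ ^ 2 := by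
      intro p
      have e3 : E1 p * Op us' (fun q => ((H q : ℝ) : ℂ) * Φ q) p - ((H (D.ph (A.sg R) p) : ℝ) : ℂ) * (E1 p * Op us' Φ p) =
          E1 p * (Op us' (fun q => ((H q : ℝ) : ℂ) * Φ q) p - ((H (D.ph (A.sg R) p) : ℝ) : ℂ) * Op us' Φ p) := by ring
      rw [e3, norm_mul, hE1n, one_mul]
    simp only [e1]
    refine c1.trans (le_of_eq ?_)
    rw [n7, mul_pow]
    rfl

end

end Pool.Agent.VQ
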