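import Pool.Agent.helper84.VQ.Spec4b
import Pool.Agent.helper62.RS.All

/-!
# MP_07c750_an, project VQ, row DB4 (domination of one big step by an integral over a curve)
-/

set_option autoImplicit false

open scoped MatrixGroups ContDiff Topology UpperHalfPlane ComplexConjugate ENNReal
open UpperHalfPlane MeasureTheory Filter Set

namespace Pool.Agent.VQ

open Pool.Agent.RS
open Pool.Agent.VQE (nm)

theorem DB4_pm : TopologicalSpace.PseudoMetrizableSpace SL(2, ℝ) := by
  have : TopologicalSpace.PseudoMetrizableSpace (Matrix (Fin 2) (Fin 2) ℝ) :=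
    inferInstanceAs (TopologicalSpace.PseudoMetrizableSpace (Fin 2 → Fin 2 → ℝ))
  have h1 : Topology.IsClosedEmbedding (fun b : SL(2, ℝ) => b.1) := Matrix.SpecialLinearGroup.isClosedEmbedding_val
  exact h1.isEmbedding.isInducing.pseudoMetrizableSpace

theorem DB4_meas_le {μ ν : Measure SL(2, ℝ)} [IsFiniteMeasure μ] (h : ∀ T, IsClosed T → μ T ≤ ν T) : μ ≤ ν := by
  have := DB4_pm
  rw [Measure.le_iff]
  intro B hB
  rw [hB.measure_eq_iSup_isClosed_of_ne_top (measure_ne_top μ B)]
  refine iSup_le fun K => iSup_le fun hK => iSup_le fun hKc => ?_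
  exact (h K hKc).trans (measure_mono hK)

theorem DB4_Th (y : ℝ → SL(2, ℝ)) (hy : Continuous y) : Continuous (Th3 y) := by
  have ha : Continuous aM := A_GLC.2.2.2.1
  have hn : Continuous nM := A_GLC.2.2.2.2.1
  unfold Th3
  exact ((hy.comp (continuous_apply 0)).mul (hn.comp (continuous_apply 1))).mul (ha.comp (continuous_apply 2))

/-- coordinates -/
theorem DB4_coord : MeasurePreserving (fun z : Fin 3 → ℝ => ((z 0, (z 1, z 2)) : ℝ × ℝ × ℝ)) volume volume := by
  have h1 := volume_preserving_piFinSuccAbove (fun _ : Fin 3 => ℝ) 0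
  have h2 := volume_preserving_finTwoArrow ℝ
  have h3 : MeasurePreserving (Prod.map (id : ℝ → ℝ) (MeasurableEquiv.finTwoArrow : (Fin 2 → ℝ) ≃ᵐ ℝ × ℝ))
      (volume : Measure (ℝ × (Fin 2 → ℝ))) (volume : Measure (ℝ × (ℝ × ℝ))) :=
    (MeasurePreserving.id (volume : Measure ℝ)).prod h2
  exact h3.comp h1

theorem DB4_box (r : ℝ) (W : ℝ × ℝ × ℝ → ENNReal) (hW : Measurable W) :
    ∫⁻ z in Icc (fun _ : Fin 3 => -r) (fun _ => r), W (z 0, (z 1, z 2)) = ∫⁻ o in Icc (-r) r ×ˢ Icc (-r) r ×ˢ Icc (-r) r, W o := by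
  have h1 := DB4_coord.setLIntegral_comp_preimage (s := Icc (-r) r ×ˢ Icc (-r) r ×ˢ Icc (-r) r)
    (measurableSet_Icc.prod (measurableSet_Icc.prod measurableSet_Icc)) hW
  rw [← h1]
  congr 2
  ext z
  simp only [mem_Icc, mem_preimage, mem_prod, Pi.le_def, Fin.forall_fin_succ, IsEmpty.forall_iff, and_true]
  constructor
  · rintro ⟨⟨a, b, c⟩, d, e, f⟩
    exact ⟨⟨a, d⟩, ⟨b, e⟩, ⟨c, f⟩⟩
  · rintro ⟨⟨a, d⟩, ⟨b, e⟩, ⟨c, f⟩⟩
    exact ⟨⟨a, b, c⟩, d, e, f⟩

theorem DB4_proof (hDA4 : DA4_stmt) : DB4_stmt := by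
  obtain ⟨K, hK, hDA⟩ := hDA4
  refine ⟨K, hK, ?_⟩
  intro c r y hy g V hV
  have hΘ := DB4_Th y hy.cont
  obtain ⟨Q, hQdef⟩ : ∃ Q : Set (Fin 3 → ℝ), Q = Icc (fun _ => -r) (fun _ => r) := ⟨_, rfl⟩
  have hQc : IsCompact Q := by
    rw [hQdef]
    exact isCompact_Icc
  have hQm : MeasurableSet Q := hQc.isClosed.measurableSet
  have hIm : IsCompact (Th3 y '' Q) := hQc.image hΘ
  have hImm : MeasurableSet (Th3 y '' Q) := hIm.isClosed.measurableSet
  -- the comparison of the measures
  have hfin : mG (Th3 y '' Q) < ⊤ := A_GMG.2.1 _ hIm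
  have : IsFiniteMeasure (mG.restrict (Th3 y '' Q)) := ⟨by
    rw [Measure.restrict_apply_univ]
    exact hfin⟩
  have hle : mG.restrict (Th3 y '' Q) ≤ ENNReal.ofReal (K * c) • Measure.map (Th3 y) (volume.restrict Q) := by
    apply DB4_meas_le
    intro T hT
    have hpre : MeasurableSet (Th3 y ⁻¹' T) := (hT.preimage hΘ).measurableSet
    rw [Measure.restrict_apply hT.measurableSet, Measure.smul_apply, Measure.map_apply hΘ.measurable hT.measurableSet,
      Measure.restrict_apply hpre, smul_eq_mul]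
    have h1 : T ∩ Th3 y '' Q = Th3 y '' (Th3 y ⁻¹' T ∩ Q) := by
      rw [inter_comm T, inter_comm (Th3 y ⁻¹' T), image_inter_preimage]
    rw [h1]
    exact hDA c r y hy _ (hQc.inter_left (hT.preimage hΘ)) (by
      rw [hQdef]
      exact inter_subset_right)
  -- left invariance
  have hmp : MeasurePreserving (fun h : SL(2, ℝ) => g * h) mG mG := ⟨(continuous_const.mul continuous_id).measurable, A_GLI g⟩
  have hS : {h | ∃ u ∈ Icc (-r) r, ∃ x ∈ Icc (-r) r, ∃ s ∈ Icc (-r) r, h = g * y u * nM x * aM s} = (fun h => g * h) '' (Th3 y '' Q) := by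
    ext h
    constructor
    · rintro ⟨u, hu, x, hx, s, hs, rfl⟩
      refine ⟨y u * nM x * aM s, ⟨![u, x, s], ?_, ?_⟩, ?_⟩
      · rw [hQdef]
        constructor
        · intro i
          fin_cases i
          · exact hu.1
          · exact hx.1
          · exact hs.1
        · intro i
          fin_cases i
          · exact hu.2
          · exact hx.2
          · exact hs.2
      · rfl
      · simp only [mul_assoc]
    · rintro ⟨_, ⟨z, hz, rfl⟩, rfl⟩
      rw [hQdef] at hz
      refine ⟨z 0, ⟨hz.1 0, hz.2 0⟩, z 1, ⟨hz.1 1, hz.2 1⟩, z 2, ⟨hz.1 2, hz.2 2⟩, ?_⟩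
      show g * (y (z 0) * nM (z 1) * aM (z 2)) = _
      simp only [mul_assoc]
  have hSm : MeasurableSet ((fun h => g * h) '' (Th3 y '' Q)) :=
    (hIm.image (continuous_const.mul continuous_id)).isClosed.measurableSet
  have hpre : (fun h : SL(2, ℝ) => g * h) ⁻¹' ((fun h => g * h) '' (Th3 y '' Q)) = Th3 y '' Q :=
    preimage_image_eq _ (mul_right_injective g)
  rw [hS, ← hmp.setLIntegral_comp_preimage hSm hV, hpre]
  have hVg : Measurable fun h : SL(2, ℝ) => V (g * h) := hV.comp hmp.measurable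
  calc ∫⁻ h in Th3 y '' Q, V (g * h) ∂mG ≤ ∫⁻ h, V (g * h) ∂(ENNReal.ofReal (K * c) • Measure.map (Th3 y) (volume.restrict Q)) :=
        lintegral_mono' hle le_rfl
    _ = ENNReal.ofReal (K * c) * ∫⁻ z in Q, V (g * Th3 y z) := by
        rw [lintegral_smul_measure, lintegral_map hVg hΘ.measurable, smul_eq_mul]
    _ = ENNReal.ofReal (K * c) * ∫⁻ o in Icc (-r) r ×ˢ Icc (-r) r ×ˢ Icc (-r) r, V (g * y o.1 * nM o.2.1 * aM o.2.2) := by
        congr 1
        have h2 := DB4_box r (fun o => V (g * y o.1 * nM o.2.1 * aM o.2.2)) (by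
          apply hV.comp
          have ha : Continuous aM := A_GLC.2.2.2.1
          have hn : Continuous nM := A_GLC.2.2.2.2.1
          exact (((continuous_const.mul (hy.cont.comp continuous_fst)).mul (hn.comp (continuous_fst.comp continuous_snd))).mul
            (ha.comp (continuous_snd.comp continuous_snd))).measurable)
        rw [← h2, hQdef]
        apply lintegral_congr
        intro z
        show V (g * (y (z 0) * nM (z 1) * aM (z 2))) = V (g * y (z 0) * nM (z 1) * aM (z 2))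
        simp only [mul_assoc]

end Pool.Agent.VQ
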