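import Pool.Agent.helper84.VQ.Spec4a

/-!
# MP_07c750_an, project VQ, row SA4 (one step of time `t ∈ [1, 2]`)
-/

set_option autoImplicit false

open scoped MatrixGroups ContDiff Topology UpperHalfPlane ComplexConjugate ENNReal
open UpperHalfPlane MeasureTheory Filter Set

namespace Pool.Agent.VQ

open Pool.Agent.RS
open Pool.Agent.VQE (nm)

theorem SA4_nm (x : SL(2, ℝ)) : |x.1 0 0 - 1| ≤ nm x ∧ |x.1 0 1| ≤ nm x ∧ |x.1 1 0| ≤ nm x ∧ |x.1 1 1 - 1| ≤ nm x := by
  unfold Pool.Agent.VQE.nm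
  exact ⟨(le_max_left _ _).trans (le_max_left _ _), (le_max_right _ _).trans (le_max_left _ _),
    (le_max_left _ _).trans (le_max_right _ _), (le_max_right _ _).trans (le_max_right _ _)⟩

theorem SA4_cont {d : ℝ} {D : Dyn} (hF : FE d D) {E : ℝ} (hE : |E| ≤ d / 4) (g : SL(2, ℝ)) (φ : SL(2, ℝ) → ℝ)
    (hφ : ∀ g x : SL(2, ℝ), |φ (g * x) - φ g| ≤ d * nm x) : Continuous fun s => φ (D.fl E s g) := by
  rw [continuous_iff_continuousAt]
  intro s0
  have hent : ∀ i j, ContinuousAt (fun s => (D.fl E s g).1 i j) s0 := fun i j => (hF.der E s0 g hE i j).continuousAt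
  have hprod : ∀ i j, ContinuousAt (fun s => ((D.fl E s0 g)⁻¹ * D.fl E s g).1 i j) s0 := by
    intro i j
    have h1 : (fun s => ((D.fl E s0 g)⁻¹ * D.fl E s g).1 i j) =
        fun s => ((D.fl E s0 g)⁻¹).1 i 0 * (D.fl E s g).1 0 j + ((D.fl E s0 g)⁻¹).1 i 1 * (D.fl E s g).1 1 j := by
      funext s
      show (((D.fl E s0 g)⁻¹).1 * (D.fl E s g).1) i j = _
      rw [Matrix.mul_apply, Fin.sum_univ_two]
    rw [h1]
    exact (continuousAt_const.mul (hent 0 j)).add (continuousAt_const.mul (hent 1 j))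
  have hnm : ContinuousAt (fun s => nm ((D.fl E s0 g)⁻¹ * D.fl E s g)) s0 := by
    unfold Pool.Agent.VQE.nm
    exact ((((hprod 0 0).sub continuousAt_const).abs).max (hprod 0 1).abs).max
      ((hprod 1 0).abs.max ((hprod 1 1).sub continuousAt_const).abs)
  have h0 : nm ((D.fl E s0 g)⁻¹ * D.fl E s0 g) = 0 := by
    rw [inv_mul_cancel]
    unfold Pool.Agent.VQE.nm
    simp
  have hlim : Tendsto (fun s => d * nm ((D.fl E s0 g)⁻¹ * D.fl E s g)) (𝓝 s0) (𝓝 0) := by
    have h2 : Tendsto (fun s => nm ((D.fl E s0 g)⁻¹ * D.fl E s g)) (𝓝 s0) (𝓝 0) := by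
      have h3 := hnm.tendsto
      rw [h0] at h3
      exact h3
    have h4 := h2.const_mul d
    rw [mul_zero] at h4
    exact h4
  rw [ContinuousAt, tendsto_iff_norm_sub_tendsto_zero]
  apply squeeze_zero (fun _ => norm_nonneg _) _ hlim
  intro s
  have h5 := hφ (D.fl E s0 g) ((D.fl E s0 g)⁻¹ * D.fl E s g)
  rw [mul_inv_cancel_left] at h5
  rw [Real.norm_eq_abs]
  exact h5

theorem SA4_exp : Real.exp (11 / 5) ≤ 10 := by
  have h1 : Real.exp (11 / 5) = Real.exp 1 * Real.exp 1 * Real.exp (1 / 5) := by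
    rw [← Real.exp_add, ← Real.exp_add]
    norm_num
  have h2 : Real.exp (1 / 5) ≤ 5 / 4 := by
    have := Real.exp_bound_div_one_sub_of_interval (x := 1 / 5) (by norm_num) (by norm_num)
    refine this.trans (by norm_num)
  have h3 : Real.exp 1 < 2.7182818286 := Real.exp_one_lt_d9
  have h4 : 0 < Real.exp 1 := Real.exp_pos 1
  have h5 : 0 < Real.exp (1 / 5) := Real.exp_pos _
  rw [h1]
  have h6 : Real.exp 1 * Real.exp 1 ≤ 8 := by nlinarith
  nlinarith

theorem SA4_exp' : (12 : ℝ) / 5 ≤ Real.exp (29 / 30) := by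
  have := Real.quadratic_le_exp_of_nonneg (x := 29 / 30) (by norm_num)
  refine le_trans (by norm_num) this

theorem SA4_core (d ε n t : ℝ) (hd : 0 < d) (hd30 : d ≤ 1 / 30) (hε0 : 0 ≤ ε) (hε1 : ε ≤ 1) (hn0 : 0 ≤ n) (hn1 : n ≤ 1)
    (ht1 : 1 ≤ t) (ht2 : t ≤ 2) (a b c e r k r' k' : ℝ → ℝ)
    (ha : ∀ s, HasDerivAt a ((r' s - r s) / 2 * a s - (k' s * b s + k s * c s) / 2) s)
    (hb : ∀ s, HasDerivAt b (-((r s + r' s) / 2 * b s) + (k' s * a s - k s * e s) / 2) s)
    (hc : ∀ s, HasDerivAt c ((r s + r' s) / 2 * c s + (k s * a s - k' s * e s) / 2) s)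
    (he : ∀ s, HasDerivAt e (-((r' s - r s) / 2 * e s) + (k' s * c s + k s * b s) / 2) s)
    (hr : Continuous r) (hr' : Continuous r') (h1 : ∀ s, |r s - 1| ≤ d) (h2 : ∀ s, |r' s - 1| ≤ d) (h3 : ∀ s, |k s| ≤ d)
    (h4 : ∀ s, |k' s| ≤ d) (B : ℝ) (hB : B = 10 * (n + ε)) (h5 : ∀ s ∈ Icc 0 t, |r' s - r s| ≤ d * B + 2 * ε)
    (h6 : ∀ s ∈ Icc 0 t, |k' s - k s| ≤ d * B + 2 * ε)
    (h7 : ∀ s ∈ Icc 0 t, |a s - 1| ≤ B ∧ |b s| ≤ B ∧ |c s| ≤ B ∧ |e s - 1| ≤ B) :
    (∃ lam : ℝ, 12 / 5 ≤ lam ∧ lam ≤ 10 ∧ |c t - lam * c 0| ≤ 1000 * (d * n + ε)) ∧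
    |b t| ≤ 1 / 2 * |b 0| + 1000 * (d * n + ε) ∧ |(a t - e t) - (a 0 - e 0)| ≤ 1000 * (d * n + ε) := by
  have hB0 : 0 ≤ B := by rw [hB]; linarith
  have hB20 : B ≤ 20 := by rw [hB]; linarith
  have hdB0 : 0 ≤ d * B := mul_nonneg hd.le hB0
  have hdn0 : 0 ≤ d * n := mul_nonneg hd.le hn0
  have hdB : d * B ≤ 10 * (d * n) + ε := by
    rw [hB]
    have : d * ε ≤ 1 / 30 * ε := mul_le_mul_of_nonneg_right hd30 hε0
    nlinarith
  have ht0 : (0 : ℝ) ≤ t := by linarith
  have hR : Continuous fun s => (r s + r' s) / 2 := (hr.add hr').div_const 2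
  obtain ⟨Λ, hΛdef⟩ : ∃ Λ : ℝ → ℝ, Λ = fun s => ∫ u in (0 : ℝ)..s, (r u + r' u) / 2 := ⟨_, rfl⟩
  have hΛ : ∀ s, HasDerivAt Λ ((r s + r' s) / 2) s := by
    intro s
    rw [hΛdef]
    exact (hR.integral_hasStrictDerivAt 0 s).hasDerivAt
  have hΛ0 : Λ 0 = 0 := by
    rw [hΛdef]
    exact intervalIntegral.integral_same
  have hRb : ∀ s, 29 / 30 ≤ (r s + r' s) / 2 ∧ (r s + r' s) / 2 ≤ 11 / 10 := by
    intro s
    have h8 := abs_le.mp (h1 s)
    have h9 := abs_le.mp (h2 s)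
    constructor <;> linarith [h8.1, h8.2, h9.1, h9.2]
  have hΛb : ∀ s, 0 ≤ s → 29 / 30 * s ≤ Λ s ∧ Λ s ≤ 11 / 10 * s := by
    intro s hs
    rw [hΛdef]
    have hi : IntervalIntegrable (fun u => (r u + r' u) / 2) volume 0 s := hR.intervalIntegrable 0 s
    constructor
    · have h8 := intervalIntegral.integral_mono_on (a := 0) (b := s) hs (f := fun _ => (29 : ℝ) / 30)
        (g := fun u => (r u + r' u) / 2) intervalIntegrable_const hi (fun u _ => (hRb u).1)
      rw [intervalIntegral.integral_const, smul_eq_mul, sub_zero] at h8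
      linarith
    · have h8 := intervalIntegral.integral_mono_on (a := 0) (b := s) hs (g := fun _ => (11 : ℝ) / 10)
        (f := fun u => (r u + r' u) / 2) hi intervalIntegrable_const (fun u _ => (hRb u).2)
      rw [intervalIntegral.integral_const, smul_eq_mul, sub_zero] at h8
      linarith
  have hlam1 : 12 / 5 ≤ Real.exp (Λ t) := by
    have h8 := (hΛb t ht0).1
    exact SA4_exp'.trans (Real.exp_le_exp.mpr (by linarith))
  have hexp10 : ∀ s ∈ Icc 0 t, Real.exp (Λ s) ≤ 10 := by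
    intro s hs
    have h8 := (hΛb s hs.1).2
    exact (Real.exp_le_exp.mpr (by linarith [hs.2])).trans SA4_exp
  have hexp1 : ∀ s ∈ Icc 0 t, Real.exp (-Λ s) ≤ 1 := by
    intro s hs
    have h8 := (hΛb s hs.1).1
    rw [Real.exp_le_one_iff]
    have : 0 ≤ 29 / 30 * s := mul_nonneg (by norm_num) hs.1
    linarith
  have h0t : (0 : ℝ) ∈ Icc 0 t := ⟨le_rfl, ht0⟩
  have htt : t ∈ Icc 0 t := ⟨ht0, le_rfl⟩
  obtain ⟨f, hf⟩ : ∃ f : ℝ, f = 2 * (d * B) + ε := ⟨_, rfl⟩
  have hf0 : 0 ≤ f := by rw [hf]; linarith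
  -- mean value inequality on `[0, t]`
  have mvt : ∀ (h h' : ℝ → ℝ) (C : ℝ), (∀ s, HasDerivAt h (h' s) s) → (∀ s ∈ Icc 0 t, |h' s| ≤ C) → |h t - h 0| ≤ C * t := by
    intro h h' C hh hC
    have h8 := Convex.norm_image_sub_le_of_norm_hasDerivWithin_le (f := h) (f' := h') (s := Icc 0 t) (C := C)
      (fun s _ => (hh s).hasDerivWithinAt) (fun s hs => by rw [Real.norm_eq_abs]; exact hC s hs) (convex_Icc 0 t) h0t htt
    rw [Real.norm_eq_abs, Real.norm_eq_abs, sub_zero, abs_of_nonneg ht0] at h8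
    exact h8
  -- the inhomogeneous terms
  have hmul : ∀ x y X Y : ℝ, |x| ≤ X → |y| ≤ Y → |x * y| ≤ X * Y := by
    intro x y X Y hx hy
    rw [abs_mul]
    exact mul_le_mul hx hy (abs_nonneg _) ((abs_nonneg _).trans hx)
  have hF1 : ∀ s ∈ Icc 0 t, |(k s * a s - k' s * e s) / 2| ≤ f := by
    intro s hs
    obtain ⟨q1, q2, q3, q4⟩ := h7 s hs
    have e1 := hmul _ _ _ _ (h3 s) q1
    have e2 := hmul _ _ _ _ (h4 s) q4
    have e3 := h6 s hs
    have e4 : (k s * a s - k' s * e s) / 2 = (k s * (a s - 1) - k' s * (e s - 1) - (k' s - k s)) / 2 := by ring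
    rw [e4, hf, abs_le]
    have e5 := abs_le.mp e1
    have e6 := abs_le.mp e2
    have e7 := abs_le.mp e3
    constructor <;> linarith [e5.1, e5.2, e6.1, e6.2, e7.1, e7.2]
  have hF2 : ∀ s ∈ Icc 0 t, |(k' s * a s - k s * e s) / 2| ≤ f := by
    intro s hs
    obtain ⟨q1, q2, q3, q4⟩ := h7 s hs
    have e1 := hmul _ _ _ _ (h4 s) q1
    have e2 := hmul _ _ _ _ (h3 s) q4
    have e3 := h6 s hs
    have e4 : (k' s * a s - k s * e s) / 2 = (k' s * (a s - 1) - k s * (e s - 1) + (k' s - k s)) / 2 := by ring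
    rw [e4, hf, abs_le]
    have e5 := abs_le.mp e1
    have e6 := abs_le.mp e2
    have e7 := abs_le.mp e3
    constructor <;> linarith [e5.1, e5.2, e6.1, e6.2, e7.1, e7.2]
  refine ⟨⟨Real.exp (Λ t), hlam1, hexp10 t htt, ?_⟩, ?_, ?_⟩
  · have h8 := mvt (fun s => c s * Real.exp (-Λ s)) (fun s => (k s * a s - k' s * e s) / 2 * Real.exp (-Λ s)) f (by
      intro s
      have h9 := (hc s).mul ((hΛ s).neg.exp)
      have h10 : ((r s + r' s) / 2 * c s + (k s * a s - k' s * e s) / 2) * Real.exp (-Λ s) + c s * (Real.exp (-Λ s) * -((r s + r' s) / 2)) =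
          (k s * a s - k' s * e s) / 2 * Real.exp (-Λ s) := by ring
      exact h10 ▸ h9) (by
      intro s hs
      rw [abs_mul, abs_of_pos (Real.exp_pos _)]
      calc |(k s * a s - k' s * e s) / 2| * Real.exp (-Λ s) ≤ f * 1 :=
          mul_le_mul (hF1 s hs) (hexp1 s hs) (Real.exp_pos _).le hf0
        _ = f := mul_one f)
    have h8' : |c t * Real.exp (-Λ t) - c 0| ≤ f * t := by
      have h9 : |c t * Real.exp (-Λ t) - c 0 * Real.exp (-Λ 0)| ≤ f * t := h8
      rw [hΛ0, neg_zero, Real.exp_zero, mul_one] at h9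
      exact h9
    have h11 : c t - Real.exp (Λ t) * c 0 = Real.exp (Λ t) * (c t * Real.exp (-Λ t) - c 0) := by
      rw [mul_sub, mul_left_comm, ← Real.exp_add, add_neg_cancel, Real.exp_zero, mul_one]
    rw [h11, abs_mul, abs_of_pos (Real.exp_pos _)]
    have h12 : Real.exp (Λ t) * |c t * Real.exp (-Λ t) - c 0| ≤ 10 * (f * t) :=
      mul_le_mul (hexp10 t htt) h8' (abs_nonneg _) (by norm_num)
    have h13 : f * t ≤ f * 2 := mul_le_mul_of_nonneg_left ht2 hf0
    have h14 : f ≤ 20 * (d * n) + 3 * ε := by rw [hf]; linarith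
    linarith
  · have h8 := mvt (fun s => b s * Real.exp (Λ s)) (fun s => (k' s * a s - k s * e s) / 2 * Real.exp (Λ s)) (f * 10) (by
      intro s
      have h9 := (hb s).mul ((hΛ s).exp)
      have h10 : (-((r s + r' s) / 2 * b s) + (k' s * a s - k s * e s) / 2) * Real.exp (Λ s) + b s * (Real.exp (Λ s) * ((r s + r' s) / 2)) =
          (k' s * a s - k s * e s) / 2 * Real.exp (Λ s) := by ring
      exact h10 ▸ h9) (by
      intro s hs
      rw [abs_mul, abs_of_pos (Real.exp_pos _)]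
      exact mul_le_mul (hF2 s hs) (hexp10 s hs) (Real.exp_pos _).le hf0)
    have h8' : |b t * Real.exp (Λ t) - b 0| ≤ f * 10 * t := by
      have h9 : |b t * Real.exp (Λ t) - b 0 * Real.exp (Λ 0)| ≤ f * 10 * t := h8
      rw [hΛ0, Real.exp_zero, mul_one] at h9
      exact h9
    have h13 : f * 10 * t ≤ f * 10 * 2 := mul_le_mul_of_nonneg_left ht2 (by linarith)
    have h14 : f ≤ 20 * (d * n) + 3 * ε := by rw [hf]; linarith
    have h15 : |b t| * Real.exp (Λ t) ≤ |b 0| + 20 * f := by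
      have h16 : |b t * Real.exp (Λ t)| ≤ |b 0| + |b t * Real.exp (Λ t) - b 0| := by
        have := abs_add_le (b 0) (b t * Real.exp (Λ t) - b 0)
        rwa [add_sub_cancel] at this
      rw [abs_mul, abs_of_pos (Real.exp_pos _)] at h16
      linarith
    have h17 : |b t| * (12 / 5) ≤ |b 0| + 20 * f := by
      have : |b t| * (12 / 5) ≤ |b t| * Real.exp (Λ t) := mul_le_mul_of_nonneg_left hlam1 (abs_nonneg _)
      linarith
    have h18 : 0 ≤ |b 0| := abs_nonneg _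
    linarith
  · have h8 := mvt (fun s => a s - e s) (fun s => ((r' s - r s) / 2 * a s - (k' s * b s + k s * c s) / 2) -
        (-((r' s - r s) / 2 * e s) + (k' s * c s + k s * b s) / 2)) (23 * (d * B) + 42 * ε) (fun s => (ha s).sub (he s)) (by
      intro s hs
      obtain ⟨q1, q2, q3, q4⟩ := h7 s hs
      have e1 : ((r' s - r s) / 2 * a s - (k' s * b s + k s * c s) / 2) - (-((r' s - r s) / 2 * e s) + (k' s * c s + k s * b s) / 2) =
          (r' s - r s) * ((a s + e s) / 2) - (k s + k' s) * ((b s + c s) / 2) := by ring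
      have q1' := abs_le.mp q1
      have q2' := abs_le.mp q2
      have q3' := abs_le.mp q3
      have q4' := abs_le.mp q4
      have e2 : |(a s + e s) / 2| ≤ 21 := by
        rw [abs_le]
        constructor <;> linarith [q1'.1, q1'.2, q4'.1, q4'.2]
      have e3 : |(b s + c s) / 2| ≤ B := by
        rw [abs_le]
        constructor <;> linarith [q2'.1, q2'.2, q3'.1, q3'.2]
      have e4 : |k s + k' s| ≤ 2 * d := by
        have := abs_add_le (k s) (k' s)
        linarith [h3 s, h4 s]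
      have e5 := hmul _ _ _ _ (h5 s hs) e2
      have e6 := hmul _ _ _ _ e4 e3
      rw [e1]
      have e7 := abs_sub ((r' s - r s) * ((a s + e s) / 2)) ((k s + k' s) * ((b s + c s) / 2))
      linarith)
    have h9 : |(a t - e t) - (a 0 - e 0)| ≤ (23 * (d * B) + 42 * ε) * t := h8
    have h10 : (23 * (d * B) + 42 * ε) * t ≤ (23 * (d * B) + 42 * ε) * 2 :=
      mul_le_mul_of_nonneg_left ht2 (by linarith)
    linarith

theorem SA4_proof (hPD4 : PD4_stmt) (hGR4 : GR4_stmt) : SA4_stmt := by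
  refine ⟨1000, by norm_num, ?_⟩
  intro d D hF hd hd30 E E' t ε g g' x y hE hE' hEE hε1 ht1 ht2 hx hy hnx
  have hε0 : 0 ≤ ε := (abs_nonneg _).trans hEE
  have hn0 : 0 ≤ nm x := (abs_nonneg _).trans (SA4_nm x).1
  have hX0 : Xt D E E' g g' 0 = x := by
    unfold Xt
    rw [hF.zero, hF.zero, hx]
  have hN : ∀ s ∈ Icc 0 t, nm (Xt D E E' g g' s) ≤ 10 * (nm x + ε) := by
    intro s hs
    have h1 := hGR4 d D hF hd hd30 E E' s ε g g' hE hE' hEE
    rw [← hx, abs_of_nonneg hs.1] at h1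
    have h2 : Real.exp (11 / 10 * s) ≤ 10 := (Real.exp_le_exp.mpr (by linarith [hs.2])).trans SA4_exp
    calc nm (Xt D E E' g g' s) ≤ (nm x + ε) * Real.exp (11 / 10 * s) := h1
      _ ≤ (nm x + ε) * 10 := mul_le_mul_of_nonneg_left h2 (by linarith)
      _ = 10 * (nm x + ε) := mul_comm _ _
  have hmulX : ∀ s, D.fl E s g * Xt D E E' g g' s = D.fl E' s g' := by
    intro s
    unfold Xt
    rw [mul_inv_cancel_left]
  have hcore := SA4_core d ε (nm x) t hd hd30 hε0 hε1 hn0 hnx ht1 ht2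
    (fun s => (Xt D E E' g g' s).1 0 0) (fun s => (Xt D E E' g g' s).1 0 1) (fun s => (Xt D E E' g g' s).1 1 0)
    (fun s => (Xt D E E' g g' s).1 1 1) (fun s => rho D.U E (D.fl E s g)) (fun s => kap D.U E (D.fl E s g))
    (fun s => rho D.U E' (D.fl E' s g')) (fun s => kap D.U E' (D.fl E' s g'))
    (fun s => (hPD4 d D hF E E' s g g' hE hE' _ _ _ _ rfl rfl rfl rfl).1)
    (fun s => (hPD4 d D hF E E' s g g' hE hE' _ _ _ _ rfl rfl rfl rfl).2.1)
    (fun s => (hPD4 d D hF E E' s g g' hE hE' _ _ _ _ rfl rfl rfl rfl).2.2.1)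
    (fun s => (hPD4 d D hF E E' s g g' hE hE' _ _ _ _ rfl rfl rfl rfl).2.2.2)
    (SA4_cont hF hE g (rho D.U E) (fun g x => by
      have := hF.lr E E g x hE hE
      rwa [sub_self, abs_zero, mul_zero, add_zero] at this))
    (SA4_cont hF hE' g' (rho D.U E') (fun g x => by
      have := hF.lr E' E' g x hE' hE'
      rwa [sub_self, abs_zero, mul_zero, add_zero] at this))
    (fun s => hF.ro E _ hE) (fun s => hF.ro E' _ hE') (fun s => hF.ka E _ hE) (fun s => hF.ka E' _ hE')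
    (10 * (nm x + ε)) rfl
    (fun s hs => by
      have h1 := hF.lr E E' (D.fl E s g) (Xt D E E' g g' s) hE hE'
      rw [hmulX] at h1
      have h2 := mul_le_mul_of_nonneg_left (hN s hs) hd.le
      show |rho D.U E' (D.fl E' s g') - rho D.U E (D.fl E s g)| ≤ _
      linarith)
    (fun s hs => by
      have h1 := hF.lk E E' (D.fl E s g) (Xt D E E' g g' s) hE hE'
      rw [hmulX] at h1
      have h2 := mul_le_mul_of_nonneg_left (hN s hs) hd.le
      show |kap D.U E' (D.fl E' s g') - kap D.U E (D.fl E s g)| ≤ _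
      linarith)
    (fun s hs => by
      obtain ⟨q1, q2, q3, q4⟩ := SA4_nm (Xt D E E' g g' s)
      have h1 := hN s hs
      exact ⟨q1.trans h1, q2.trans h1, q3.trans h1, q4.trans h1⟩)
  have ht0 : (0 : ℝ) ≤ t := by linarith
  simp only [hX0, ← hy] at hcore
  refine ⟨?_, hcore⟩
  rw [hy]
  exact hN t ⟨ht0, le_rfl⟩

end Pool.Agent.VQ
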